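import Pool.Agent.Y262.EG.Stm

/-!
# Project EG: the family of metrics stays in the class
-/

set_option autoImplicit false

open Set Filter Topology MeasureTheory
open scoped ContDiff

noncomputable section

namespace Pool.Agent.Y284.EG

open Pool.Agent.Y262.EG

theorem px_congr {f g : ℂ → ℝ} {z : ℂ} (h : f =ᶠ[𝓝 z] g) : px f =ᶠ[𝓝 z] px g := by
  filter_upwards [h.fderiv (𝕜 := ℝ)] with y hy
  unfold px
  rw [hy]

theorem py_congr {f g : ℂ → ℝ} {z : ℂ} (h : f =ᶠ[𝓝 z] g) : py f =ᶠ[𝓝 z] py g := by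
  filter_upwards [h.fderiv (𝕜 := ℝ)] with y hy
  unfold py
  rw [hy]

theorem curv_congr {f g : ℂ → ℝ} {z : ℂ} (h : f =ᶠ[𝓝 z] g) : curv f =ᶠ[𝓝 z] curv g := by
  filter_upwards [h, px_congr (px_congr h), py_congr (py_congr h)] with y h1 h2 h3
  unfold curv
  rw [h1, h2, h3]

theorem px_smooth {Ω : Set ℂ} {f : ℂ → ℝ} (hΩ : IsOpen Ω) (hf : ContDiffOn ℝ ∞ f Ω) :
    ContDiffOn ℝ ∞ (px f) Ω ∧ ContDiffOn ℝ ∞ (py f) Ω := by
  have h1 : ContDiffOn ℝ ∞ (fderiv ℝ f) Ω := hf.fderiv_of_isOpen hΩ le_rfl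
  exact ⟨h1.clm_apply contDiffOn_const, h1.clm_apply contDiffOn_const⟩

theorem dif {Ω : Set ℂ} {f : ℂ → ℝ} (hΩ : IsOpen Ω) (hf : ContDiffOn ℝ ∞ f Ω) {z : ℂ}
    (hz : z ∈ Ω) : DifferentiableAt ℝ f z :=
  (hf.contDiffAt (hΩ.mem_nhds hz)).differentiableAt (by simp)

theorem p_lin {Ω : Set ℂ} {f g : ℂ → ℝ} (hΩ : IsOpen Ω) (hf : ContDiffOn ℝ ∞ f Ω)
    (hg : ContDiffOn ℝ ∞ g Ω) (c : ℝ) {z : ℂ} (hz : z ∈ Ω) :
    px (fun y => f y + c * g y) z = px f z + c * px g z ∧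
      py (fun y => f y + c * g y) z = py f z + c * py g z := by
  have h1 := dif hΩ hf hz
  have h2 := dif hΩ hg hz
  have h3 : fderiv ℝ (fun y => f y + c * g y) z = fderiv ℝ f z + c • fderiv ℝ g z := by
    rw [fderiv_fun_add h1 (h2.const_mul c), fderiv_const_mul h2 c]
  unfold px py
  rw [h3]
  simp

theorem curv_lin {Ω : Set ℂ} {f g : ℂ → ℝ} (hΩ : IsOpen Ω) (hf : ContDiffOn ℝ ∞ f Ω)
    (hg : ContDiffOn ℝ ∞ g Ω) (s : ℝ) {z : ℂ} (hz : z ∈ Ω) :
    curv (fun y => f y + s / 2 * g y) z = Real.exp (-(s * g z)) *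
      (curv f z - s / 2 * (Real.exp (-2 * f z) * (px (px g) z + py (py g) z))) := by
  have e1 : px (fun y => f y + s / 2 * g y) =ᶠ[𝓝 z] fun y => px f y + s / 2 * px g y := by
    filter_upwards [hΩ.mem_nhds hz] with y hy
    exact (p_lin hΩ hf hg _ hy).1
  have e2 : py (fun y => f y + s / 2 * g y) =ᶠ[𝓝 z] fun y => py f y + s / 2 * py g y := by
    filter_upwards [hΩ.mem_nhds hz] with y hy
    exact (p_lin hΩ hf hg _ hy).2
  have e3 := (px_congr e1).eq_of_nhds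
  have e4 := (py_congr e2).eq_of_nhds
  have e5 := (p_lin hΩ (px_smooth hΩ hf).1 (px_smooth hΩ hg).1 (s / 2) hz).1
  have e6 := (p_lin hΩ (px_smooth hΩ hf).2 (px_smooth hΩ hg).2 (s / 2) hz).2
  unfold curv
  rw [e3, e4, e5, e6]
  have e7 : Real.exp (-2 * (f z + s / 2 * g z)) = Real.exp (-(s * g z)) * Real.exp (-2 * f z) := by
    rw [← Real.exp_add]
    congr 1
    ring
  rw [e7]
  ring

section

variable {M P : Type}

/-- invariant continuous functions are bounded -/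
theorem bdd_of_inv [TopologicalSpace M] [CompactSpace M] [TopologicalSpace P] {Ω : Set ℂ}
    {φ : ℂ → ℝ} {pr : ℂ → M} {q : Y → P} (hU : IsUT Ω φ pr q) {f : ℂ → ℝ}
    (hf : ContinuousOn f Ω) (hi : ∀ z ∈ Ω, ∀ w ∈ Ω, pr z = pr w → f z = f w) :
    ∃ K : ℝ, 1 ≤ K ∧ ∀ z ∈ Ω, |f z| ≤ K := by
  have hsur : ∀ x : M, ∃ z ∈ Ω, pr z = x := fun x => by
    have h : x ∈ pr '' Ω := by rw [hU.surjp]; trivial
    exact h
  choose lf hlf hlf2 using hsur
  obtain ⟨F, hF⟩ : ∃ F : M → ℝ, F = fun x => f (lf x) := ⟨_, rfl⟩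
  have hFf : ∀ z ∈ Ω, F (pr z) = f z := fun z hz => by
    rw [hF]
    exact hi _ (hlf _) z hz (hlf2 _)
  have hFc : Continuous F := by
    refine continuous_def.2 fun V hV => ?_
    have h1 : F ⁻¹' V = pr '' (Ω ∩ f ⁻¹' V) := by
      ext x
      constructor
      · intro hx
        refine ⟨lf x, ⟨hlf x, ?_⟩, hlf2 x⟩
        have : f (lf x) = F x := by rw [hF]
        rw [mem_preimage, this]
        exact hx
      · rintro ⟨z, ⟨hz, hz2⟩, rfl⟩
        rw [mem_preimage, hFf z hz]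
        exact hz2
    rw [h1]
    exact hU.opnp _ (hf.isOpen_inter_preimage hU.opn hV) inter_subset_left
  obtain ⟨K, hK⟩ := (isCompact_range hFc).isBounded.exists_norm_le
  refine ⟨max K 1, le_max_right _ _, fun z hz => ?_⟩
  have h1 := hK (F (pr z)) ⟨_, rfl⟩
  rw [hFf z hz, Real.norm_eq_abs] at h1
  exact h1.trans (le_max_left _ _)

end

theorem fam : StFrame → StInv → StUTs → StFam := by
  intro hFr hIn hUT M P _ _ _ _ Ω φ pr q L δ δ' κ C g hU hC h hh h0
  have hΩ := hU.opn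
  have hφ := hU.smooth
  obtain ⟨η, hη⟩ : ∃ η : ℂ → ℝ, η = fun z => h (pr z) := ⟨_, rfl⟩
  have hηs : ContDiffOn ℝ ∞ η Ω := by rw [hη]; exact hh
  have hη0 : ∀ z ∈ Stp L δ', η z = 0 := fun z hz => by rw [hη]; exact h0 z hz
  have hηi : ∀ z ∈ Ω, ∀ w ∈ Ω, pr z = pr w → η z = η w := fun z _ w _ hzw => by
    rw [hη]; simp only; rw [hzw]
  obtain ⟨φs, hφs⟩ : ∃ φs : ℝ → ℂ → ℝ, φs = fun s z => φ z + s / 2 * η z := ⟨_, rfl⟩
  have hφse : ∀ s, φs s = fun z => φ z + s / 2 * h (pr z) := fun s => by rw [hφs, hη]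
  have hUs : ∀ s, IsUT Ω (φs s) pr q := fun s => by
    rw [hφse]; exact (hUT M P Ω φ pr q hU h hh s).1
  obtain ⟨B, hB⟩ : ∃ B : ℂ → ℝ, B = fun z => Real.exp (-2 * φ z) *
    (px (px η) z + py (py η) z) := ⟨_, rfl⟩
  have hcur : ∀ s, ∀ z ∈ Ω, curv (φs s) z = Real.exp (-(s * η z)) * (curv φ z - s / 2 * B z) :=
    fun s z hz => by
      rw [hφs, hB]
      exact curv_lin hΩ hφ hηs s hz
  have hcs : ∀ s, ContDiffOn ℝ ∞ (curv (φs s)) Ω := fun s => (hFr Ω (φs s) hΩ (hUs s).smooth).2.2.1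
  have hc0 : ContDiffOn ℝ ∞ (curv φ) Ω := (hFr Ω φ hΩ hφ).2.2.1
  have hin0 := hIn M P Ω φ pr q hU
  have hins := fun s => hIn M P Ω (φs s) pr q (hUs s)
  have hBe : ∀ z ∈ Ω, B z = curv φ z - Real.exp (2 * η z) * curv (φs 2) z := fun z hz => by
    rw [hcur 2 z hz, ← mul_assoc, ← Real.exp_add]
    have : 2 * η z + -(2 * η z) = 0 := by ring
    rw [this, Real.exp_zero]
    ring
  -- bounds
  obtain ⟨K0, hK0, hK0b⟩ := bdd_of_inv hU hηs.continuousOn hηi
  obtain ⟨B0, hB0, hB0b⟩ := bdd_of_inv hU (f := B) (by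
      refine ContinuousOn.congr (f := fun z => curv φ z - Real.exp (2 * η z) * curv (φs 2) z) ?_ hBe
      exact hc0.continuousOn.sub (((continuousOn_const.mul hηs.continuousOn).rexp).mul
        (hcs 2).continuousOn))
    (fun z hz w hw hzw => by
      rw [hBe z hz, hBe w hw, (hin0 z hz w hw hzw).1, (hins 2 z hz w hw hzw).1, hηi z hz w hw hzw])
  have hκ := hC.posκ
  refine ⟨min (1 / (4 * K0)) (2 * κ / (3 * B0)), by positivity, fun s hs => ?_⟩
  have hs1 : |s| * K0 ≤ 1 / 4 := by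
    have h1 : |s| ≤ 1 / (4 * K0) := hs.le.trans (min_le_left _ _)
    calc |s| * K0 ≤ 1 / (4 * K0) * K0 := by gcongr
      _ = 1 / 4 := by field_simp
  have hs2 : |s| * B0 ≤ 2 * κ / 3 := by
    have h1 : |s| ≤ 2 * κ / (3 * B0) := hs.le.trans (min_le_right _ _)
    calc |s| * B0 ≤ 2 * κ / (3 * B0) * B0 := by gcongr
      _ = 2 * κ / 3 := by field_simp
  -- near the strip nothing changes
  have hopS : IsOpen (Stp L δ') := by
    have e : Stp L δ' = (fun z : ℂ => z.re) ⁻¹' Ioo (-δ') (L + δ') := rfl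
    rw [e]
    exact isOpen_Ioo.preimage Complex.continuous_re
  have hSS : Stp L δ ⊆ Stp L δ' := fun w hw => ⟨by linarith [hw.1, hC.ltδ], by
    linarith [hw.2, hC.ltδ]⟩
  have hnear : ∀ w ∈ Stp L δ', φs s =ᶠ[𝓝 w] φ := fun w hw => by
    filter_upwards [hopS.mem_nhds hw] with y hy
    rw [hφs]
    simp only
    rw [hη0 y hy, mul_zero, add_zero]
  have hnc : ∀ w ∈ Stp L δ', curv (φs s) =ᶠ[𝓝 w] curv φ := fun w hw => curv_congr (hnear w hw)
  have hover : ∀ z ∈ Ω, ∀ w ∈ Stp L δ, pr w = pr z → curv (φs s) z = curv φ z ∧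
      Real.exp (-φs s z) * ‖fderiv ℝ (curv (φs s)) z‖ =
        Real.exp (-φ z) * ‖fderiv ℝ (curv φ) z‖ := by
    intro z hz w hw hwz
    have hw' := hSS hw
    have hwΩ := hC.strip hw'
    have a1 := hins s z hz w hwΩ hwz.symm
    have a2 := hin0 z hz w hwΩ hwz.symm
    have a3 := (hnc w hw').eq_of_nhds
    have a4 := (hnear w hw').eq_of_nhds
    have a5 := (hnc w hw').fderiv_eq (𝕜 := ℝ)
    refine ⟨by rw [a1.1, a2.1, a3], ?_⟩
    rw [a1.2, a2.2, a4, a5]
  have haway : ∀ z ∈ Ω, (¬ ∃ w ∈ Stp L δ, pr w = pr z) → curv (φs s) z ≤ -(κ / 2) := by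
    intro z hz hno
    have h1 : curv φ z ≤ -κ := by
      by_contra hcon
      push Not at hcon
      exact hno (hC.low z hz hcon)
    rw [hcur s z hz]
    have h2 : -(s / 2 * B z) ≤ κ / 3 := by
      have h3 : |s / 2 * B z| ≤ |s| / 2 * B0 := by
        rw [abs_mul, abs_div, abs_two]
        have := hB0b z hz
        gcongr
      have h4 := neg_abs_le (s / 2 * B z)
      linarith
    have h5 : 3 / 4 ≤ Real.exp (-(s * η z)) := by
      have h6 : s * η z ≤ 1 / 4 := by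
        have h7 : |s * η z| ≤ |s| * K0 := by
          rw [abs_mul]
          have := hK0b z hz
          gcongr
        have h8 := le_abs_self (s * η z)
        linarith
      have h9 := Real.add_one_le_exp (-(s * η z))
      linarith
    have h10 : curv φ z - s / 2 * B z ≤ -(2 / 3 * κ) := by linarith
    nlinarith
  -- bound of the derivative
  obtain ⟨B1, hB1, hB1b⟩ := bdd_of_inv (hUs s)
    (f := fun z => Real.exp (-φs s z) * ‖fderiv ℝ (curv (φs s)) z‖)
    ((((hUs s).smooth.continuousOn).neg.rexp).mul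
      (((hcs s).continuousOn_fderiv_of_isOpen hΩ (by simp)).norm))
    (fun z hz w hw hzw => (hins s z hz w hw hzw).2)
  have hκp : 0 < (κ / 2) ^ (39 / 40 : ℝ) := Real.rpow_pos_of_pos (by positivity) _
  refine ⟨max C (B1 / (κ / 2) ^ (39 / 40 : ℝ)), ?_⟩
  rw [← hφse]
  refine ⟨hC.posL, hC.posδ, hC.ltδ, by positivity, hC.strip, ?_, hC.flat, hC.per, hC.inj, ?_, ?_,
    ?_, ?_, hC.conn⟩
  · intro z hz
    rw [(hnear z hz).eq_of_nhds]
    exact hC.rot z hz
  · intro z hz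
    by_cases hov : ∃ w ∈ Stp L δ, pr w = pr z
    · obtain ⟨w, hw, hwz⟩ := hov
      rw [(hover z hz w hw hwz).1]
      exact hC.neg z hz
    · have := haway z hz hov
      linarith
  · intro z hz hlt
    by_contra hov
    have := haway z hz hov
    linarith
  · intro z hz hze
    by_cases hov : ∃ w ∈ Stp L δ, pr w = pr z
    · obtain ⟨w, hw, hwz⟩ := hov
      rw [(hover z hz w hw hwz).1] at hze
      exact hC.zero z hz hze
    · have := haway z hz hov
      linarith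
  · intro z hz
    by_cases hov : ∃ w ∈ Stp L δ, pr w = pr z
    · obtain ⟨w, hw, hwz⟩ := hov
      rw [(hover z hz w hw hwz).1, (hover z hz w hw hwz).2]
      refine (hC.der z hz).trans ?_
      have : 0 ≤ |curv φ z| ^ (39 / 40 : ℝ) := Real.rpow_nonneg (abs_nonneg _) _
      gcongr
      exact le_max_left _ _
    · have h1 := haway z hz hov
      have h2 : κ / 2 ≤ |curv (φs s) z| := by
        rw [abs_of_nonpos (by linarith)]
        linarith
      have h3 : (κ / 2) ^ (39 / 40 : ℝ) ≤ |curv (φs s) z| ^ (39 / 40 : ℝ) :=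
        Real.rpow_le_rpow (by positivity) h2 (by norm_num)
      have h4 := hB1b z hz
      rw [abs_of_nonneg (by positivity)] at h4
      refine h4.trans ?_
      calc B1 = B1 / (κ / 2) ^ (39 / 40 : ℝ) * (κ / 2) ^ (39 / 40 : ℝ) := by field_simp
        _ ≤ max C (B1 / (κ / 2) ^ (39 / 40 : ℝ)) * |curv (φs s) z| ^ (39 / 40 : ℝ) := by
          have h5 : 0 ≤ max C (B1 / (κ / 2) ^ (39 / 40 : ℝ)) :=
            le_trans (by positivity) (le_max_right _ _)
          gcongr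
          exact le_max_right _ _

end Pool.Agent.Y284.EG
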